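import Pool.Agent.Lib.MP_50bb2e_nt.MT.Iface

/-!
Module LFI: at a finite place triviality defines a subgroup of finite index.
-/

open NumberField IsDedekindDomain Filter Topology

namespace Pool.Agent.Lib.MP_50bb2e_nt.MT.H57

namespace LfiM

variable {F : Type} [Field F] [NumberField F]

omit [NumberField F] in
theorem sq_one (q : Quad F) : q * q = 1 := by
  obtain ⟨d, rfl⟩ := QuotientGroup.mk_surjective q
  exact (QuotientGroup.eq_one_iff _).2 ⟨d, by simp [pow_two]⟩

omit [NumberField F] in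
theorem q_mul_one (q : Quad F) : q * 1 = q := mul_one q

omit [NumberField F] in
theorem q_comm (q q' : Quad F) : q * q' = q' * q :=
  @CommMagma.mul_comm (Quad F) (QuotientGroup.Quotient.commGroup _).toCommMagma q q'

omit [NumberField F] in
theorem cls_mul_sq (d t : Fˣ) : cls (d * t ^ 2) = cls d := by
  refine QuotientGroup.eq.2 ⟨t⁻¹, ?_⟩
  simp only [powMonoidHom_apply]
  group

/-- A class with even order at `v` has an integral representative which is a unit at `v`. -/
theorem rep (h2 : OrdS) (v : Pr F) (q : Quad F) (hq : ¬ OddAt v q) :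
    ∃ (m : 𝓞 F) (hm : algebraMap (𝓞 F) F m ≠ 0), m ∉ v.asIdeal ∧ cls (Units.mk0 _ hm) = q := by
  obtain ⟨d, rfl⟩ := QuotientGroup.mk_surjective q
  change ¬ OddAt v (cls d) at hq
  rw [(h2 F).1, Int.not_odd_iff_even] at hq
  obtain ⟨k, hk⟩ := hq
  have hd0 : v.valuation F (d : F) ≠ 0 := (Valuation.ne_zero_iff _).2 d.ne_zero
  have hd : v.valuation F (d : F) = WithZero.exp (k + k) := by
    rw [← hk, WithZero.exp_log hd0]
  obtain ⟨p, hp⟩ := v.valuation_exists_uniformizer F
  have hp0 : p ≠ 0 := by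
    rintro rfl
    rw [map_zero] at hp
    exact WithZero.coe_ne_zero hp.symm
  let p' : Fˣ := Units.mk0 p hp0
  have hpk : v.valuation F (((p' ^ k : Fˣ) : F)) = WithZero.exp (-k) := by
    rw [Units.val_zpow_eq_zpow_val, map_zpow₀]
    change (v.valuation F p) ^ k = _
    rw [hp, ← WithZero.exp_zsmul]
    simp
  have h1 : v.valuation F ((d * (p' ^ k) ^ 2 : Fˣ) : F) = 1 := by
    rw [Units.val_mul, Units.val_pow_eq_pow_val, map_mul, map_pow, hpk, hd, pow_two,
      ← WithZero.exp_add, ← WithZero.exp_add]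
    have : k + k + (-k + -k) = 0 := by ring
    rw [this, WithZero.exp_zero]
  obtain ⟨n, s, hns⟩ := v.exists_primeCompl_mul_eq_of_integer _ h1.le
  have hs1 : v.valuation F (algebraMap (𝓞 F) F s) = 1 :=
    v.valuation_eq_one_iff_notMem.2 s.2
  have hs0 : algebraMap (𝓞 F) F s ≠ 0 := by
    intro h0
    rw [h0, map_zero] at hs1
    exact zero_ne_one hs1
  let s' : Fˣ := Units.mk0 _ hs0
  have hm : algebraMap (𝓞 F) F (n * s) = ((d * (p' ^ k * s') ^ 2 : Fˣ) : F) := by
    rw [map_mul, ← hns]
    simp only [Units.val_mul, Units.val_pow_eq_pow_val]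
    have : ((s' : Fˣ) : F) = algebraMap (𝓞 F) F s := rfl
    rw [this]
    ring
  have hm0 : algebraMap (𝓞 F) F (n * s) ≠ 0 := by
    rw [hm]
    exact Units.ne_zero _
  refine ⟨n * s, hm0, ?_, ?_⟩
  · rw [← v.valuation_eq_one_iff_notMem (K := F), map_mul, map_mul, hs1, ← hns, map_mul, h1, hs1]
    simp
  · have h3 : Units.mk0 _ hm0 = d * (p' ^ k * s') ^ 2 := by
      ext
      exact hm
    rw [h3, cls_mul_sq]
    rfl

end LfiM

open LfiM in
/-- LFI. -/
theorem lfi (h1 : HenS) (h2 : OrdS) : LfiS := by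
  classical
  intro F _ _ v
  let φ : Fˣ →* (v.adicCompletion F)ˣ := Units.map (algebraMap F (v.adicCompletion F)).toMonoidHom
  let K : Subgroup Fˣ := ((powMonoidHom 2 : (v.adicCompletion F)ˣ →* (v.adicCompletion F)ˣ).range).comap φ
  have hK : ∀ d : Fˣ, d ∈ K ↔ IsSquare (algebraMap F (v.adicCompletion F) (d : F)) := by
    intro d
    constructor
    · rintro ⟨u, hu⟩
      refine ⟨(u : v.adicCompletion F), ?_⟩
      have := congrArg Units.val hu
      simp only [powMonoidHom_apply, Units.val_pow_eq_pow_val] at this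
      rw [← pow_two, this]
      rfl
    · rintro ⟨r, hr⟩
      have hr0 : r ≠ 0 := by
        rintro rfl
        rw [mul_zero] at hr
        exact d.ne_zero ((map_eq_zero (algebraMap F (v.adicCompletion F))).1 hr)
      refine ⟨Units.mk0 r hr0, ?_⟩
      apply Units.ext
      simp only [powMonoidHom_apply, Units.val_pow_eq_pow_val, Units.val_mk0]
      rw [pow_two, ← hr]
      rfl
  let H : Subgroup (Quad F) := K.map (QuotientGroup.mk' _)
  have hH : ∀ q, q ∈ H ↔ TrivAt (Sum.inl v) q := by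
    intro q
    constructor
    · rintro ⟨d, hd, rfl⟩
      exact ⟨d, rfl, (hK d).1 hd⟩
    · rintro ⟨d, rfl, hd⟩
      exact ⟨d, (hK d).2 hd, rfl⟩
  refine ⟨H, ?_, hH⟩
  let I : Ideal (𝓞 F) := Ideal.span {4} * v.asIdeal
  have hI : I ≠ ⊥ := by
    rw [← Ideal.zero_eq_bot]
    refine mul_ne_zero ?_ v.ne_bot
    rw [Ne, Ideal.zero_eq_bot, Ideal.span_singleton_eq_bot]
    have h40 : (4 : 𝓞 F) ≠ 0 := by norm_num
    exact h40
  have hfinI : Finite (𝓞 F ⧸ I) := Ideal.finiteQuotientOfFreeOfNeBot I hI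
  -- two even classes with congruent representatives
  have key : ∀ (m m' : 𝓞 F) (hm : algebraMap (𝓞 F) F m ≠ 0) (hm' : algebraMap (𝓞 F) F m' ≠ 0),
      m' ∉ v.asIdeal → Ideal.Quotient.mk I m = Ideal.Quotient.mk I m' →
      cls (Units.mk0 _ hm) * cls (Units.mk0 _ hm') ∈ H := by
    intro m m' hm hm' hv he
    rw [hH]
    obtain ⟨y, hy, hy4⟩ := Ideal.mem_span_singleton_mul.1 (Ideal.Quotient.eq.1 he)
    refine ⟨Units.mk0 _ hm * Units.mk0 _ hm', rfl, ?_⟩
    have hx : Valued.v (algebraMap F (v.adicCompletion F)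
        (algebraMap (𝓞 F) F y / algebraMap (𝓞 F) F m')) < 1 := by
      have h3 := v.valuedAdicCompletion_eq_valuation' (K := F)
        (algebraMap (𝓞 F) F y / algebraMap (𝓞 F) F m')
      refine lt_of_eq_of_lt h3 ?_
      rw [map_div₀, v.valuation_eq_one_iff_notMem.2 hv, div_one]
      exact (v.valuation_lt_one_iff_mem y).2 hy
    obtain ⟨z, hz⟩ := h1 F v _ hx
    refine ⟨algebraMap F (v.adicCompletion F) (algebraMap (𝓞 F) F m') * z, ?_⟩
    have h4 : algebraMap (𝓞 F) F m * algebraMap (𝓞 F) F m' =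
        (algebraMap (𝓞 F) F m') ^ 2 *
          (1 + 4 * (algebraMap (𝓞 F) F y / algebraMap (𝓞 F) F m')) := by
      have h5 : m = m' + 4 * y := by rw [hy4]; ring
      have h6 : algebraMap (𝓞 F) F m = algebraMap (𝓞 F) F m' + 4 * algebraMap (𝓞 F) F y := by
        rw [h5, map_add, map_mul, map_ofNat]
      rw [h6]
      field_simp
    have h7 : ((Units.mk0 _ hm * Units.mk0 _ hm' : Fˣ) : F) =
        algebraMap (𝓞 F) F m * algebraMap (𝓞 F) F m' := rfl
    rw [h7, h4, map_mul, map_pow, map_add, map_mul, map_one, map_ofNat, hz]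
    ring
  obtain ⟨p, hp⟩ := v.valuation_exists_uniformizer F
  have hp0 : p ≠ 0 := by
    rintro rfl
    rw [map_zero] at hp
    exact WithZero.coe_ne_zero hp.symm
  let c : Quad F := cls (Units.mk0 p hp0)
  have hc : v ∈ sp c := by
    rw [(h2 F).2.1, (h2 F).1]
    change Odd (WithZero.log (v.valuation F p))
    rw [hp, WithZero.log_exp]
    decide
  let e : Quad F → Quad F := fun q => if OddAt v q then q * c else q
  have he : ∀ q, ¬ OddAt v (e q) := by
    intro q
    by_cases h : OddAt v q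
    · simp only [e, if_pos h]
      rw [← (h2 F).2.1, (h2 F).2.2.1, (h2 F).2.1 v q]
      tauto
    · simp only [e, if_neg h]
      exact h
  choose m hm hmv hmc using fun q : Quad F => rep h2 v (e q) (he q)
  let f : Quad F → Prop × (𝓞 F ⧸ I) := fun q => (OddAt v q, Ideal.Quotient.mk I (m q))
  have hf : ∀ q q' : Quad F, f q = f q' → q * q' ∈ H := by
    intro q q' hqq
    have h8 : OddAt v q = OddAt v q' := congrArg Prod.fst hqq
    have h9 : Ideal.Quotient.mk I (m q) = Ideal.Quotient.mk I (m q') := congrArg Prod.snd hqq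
    have h10 := key (m q) (m q') (hm q) (hm q') (hmv q') h9
    rw [hmc, hmc] at h10
    by_cases h : OddAt v q
    · have h' : OddAt v q' := h8 ▸ h
      have h11 : e q * e q' = q * q' := by
        simp only [e, if_pos h, if_pos h']
        rw [q_comm q' c, mul_assoc, ← mul_assoc c, sq_one, q_comm 1, q_mul_one]
      rwa [h11] at h10
    · have h' : ¬ OddAt v q' := h8 ▸ h
      have h11 : e q * e q' = q * q' := by
        simp only [e, if_neg h, if_neg h']
      rwa [h11] at h10
  have hinj : Function.Injective (fun z : Quad F ⧸ H => f (Quotient.out z)) := by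
    intro z z' hz
    have h12 := hf _ _ hz
    rw [← Quotient.out_eq z, ← Quotient.out_eq z']
    change (QuotientGroup.mk (Quotient.out z) : Quad F ⧸ H) = QuotientGroup.mk (Quotient.out z')
    rw [QuotientGroup.eq]
    have h13 : (Quotient.out z)⁻¹ = (Quotient.out z) := inv_eq_of_mul_eq_one_left (sq_one _)
    rw [h13]
    exact h12
  have hfin : Finite (Quad F ⧸ H) := Finite.of_injective _ hinj
  exact Subgroup.finiteIndex_of_finite_quotient

end Pool.Agent.Lib.MP_50bb2e_nt.MT.H57
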