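import Pool.Agent.Lib.MP_50bb2e_nt.MT.Iface

/-!
Module PRI: every nonzero principal integral ideal is a squarefree part times a square.
-/

open NumberField IsDedekindDomain Filter Topology

namespace Pool.Agent.Lib.MP_50bb2e_nt.MT.H57

/-- PRI. -/
theorem pri (h : OrdS) : PriS := by
  classical
  intro F _ _ a ha
  obtain ⟨h1, h2, _, _⟩ := h F
  have haF : algebraMap (𝓞 F) F a ≠ 0 := by
    intro h0
    exact ha ((map_eq_zero_iff _ (FaithfulSMul.algebraMap_injective (𝓞 F) F)).1 h0)
  let d : Fˣ := Units.mk0 (algebraMap (𝓞 F) F a) haF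
  let I : Ideal (𝓞 F) := Ideal.span {a}
  have hI : I ≠ 0 := by
    intro h0
    exact ha (by simpa [I] using h0)
  let n : Pr F → ℕ := fun v => (Associates.mk v.asIdeal).count (Associates.mk I).factors
  have hodd : ∀ v : Pr F, v ∈ sp (cls d) ↔ Odd (n v) := by
    intro v
    rw [h2, h1]
    have h3 : v.valuation F (d : F) = WithZero.exp (-(n v : ℤ)) := by
      have h4 : (d : F) = algebraMap (𝓞 F) F a := rfl
      rw [h4, HeightOneSpectrum.valuation_of_algebraMap, HeightOneSpectrum.intValuation_if_neg _ ha]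
    rw [h3, WithZero.log_exp]
    simp
  have hfin : (Function.mulSupport fun v : Pr F => v.maxPowDividing I).Finite :=
    Ideal.hasFiniteMulSupport hI
  let T : Finset (Pr F) := hfin.toFinset ∪ sp (cls d)
  have hprod : I = ∏ v ∈ T, v.asIdeal ^ n v := by
    rw [← Ideal.finprod_heightOneSpectrum_factorization hI]
    rw [finprod_eq_prod_of_mulSupport_subset]
    · rfl
    · intro v hv
      have : v ∈ hfin.toFinset := by simpa using hv
      simpa [T] using Or.inl (by simpa using hv)
  refine ⟨cls d, ∏ v ∈ T, v.asIdeal ^ (n v / 2), ?_, ?_⟩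
  · rw [Ne, ← Ideal.zero_eq_bot, Finset.prod_eq_zero_iff]
    rintro ⟨v, _, hv⟩
    exact pow_ne_zero (n v / 2) v.ne_bot hv
  have key : I = (∏ v ∈ sp (cls d), v.asIdeal) * (∏ v ∈ T, v.asIdeal ^ (n v / 2)) ^ 2 := by
    have e1 : ∏ v ∈ sp (cls d), v.asIdeal = ∏ v ∈ T, v.asIdeal ^ (n v % 2) := by
      have e2 : ∏ v ∈ sp (cls d), v.asIdeal = ∏ v ∈ sp (cls d), v.asIdeal ^ (n v % 2) := by
        refine Finset.prod_congr rfl fun v hv => ?_
        rw [Nat.odd_iff.1 ((hodd v).1 hv), pow_one]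
      rw [e2]
      refine Finset.prod_subset Finset.subset_union_right fun v _ hv => ?_
      have : ¬ Odd (n v) := fun h0 => hv ((hodd v).2 h0)
      rw [Nat.not_odd_iff_even, Nat.even_iff] at this
      rw [this, pow_zero]
    rw [e1, ← Finset.prod_pow, ← Finset.prod_mul_distrib]
    conv_lhs => rw [hprod]
    refine Finset.prod_congr rfl fun v _ => ?_
    rw [← pow_mul, ← pow_add]
    congr 1
    omega
  refine ⟨key, ?_⟩
  have e3 : Ideal.absNorm (∏ v ∈ sp (cls d), v.asIdeal) = nrm (sp (cls d)) := by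
    rw [map_prod]
    rfl
  rw [← e3, ← map_pow, ← map_mul, ← key]

end Pool.Agent.Lib.MP_50bb2e_nt.MT.H57
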