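import Pool.Agent.Lib.MP_50bb2e_nt.MT.Iface

/-!
Module QON: question Q1 is `D 2` when the parity is locally determined.
-/

open NumberField IsDedekindDomain Filter Topology

namespace Pool.Agent.Lib.MP_50bb2e_nt.MT.H57

namespace QonM

variable {F : Type} [Field F] [NumberField F]

theorem count_le (h4 : CqnS) {A A' : Set (Quad F)} (h : A ⊆ A') {X Y : ℝ} (hXY : X ≤ Y) :
    count A X ≤ count A' Y :=
  Set.ncard_le_ncard (fun _ hq => ⟨h hq.1, le_trans hq.2 hXY⟩)
    (((h4 F).1 Y).subset (fun _ hq => hq.2))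

theorem count_split (h4 : CqnS) (A B : Set (Quad F)) (X : ℝ) :
    count A X = count (A ∩ B) X + count (A ∩ Bᶜ) X := by
  have hd : Disjoint {q : Quad F | q ∈ A ∩ B ∧ (condNorm q : ℝ) ≤ X}
      {q : Quad F | q ∈ A ∩ Bᶜ ∧ (condNorm q : ℝ) ≤ X} := by
    rw [Set.disjoint_left]
    rintro q ⟨⟨_, h1⟩, _⟩ ⟨⟨_, h2⟩, _⟩
    exact h2 h1
  have hu := Set.ncard_union_eq hd (((h4 F).1 X).subset (fun _ hq => hq.2))
    (((h4 F).1 X).subset (fun _ hq => hq.2))
  have he : {q : Quad F | q ∈ A ∧ (condNorm q : ℝ) ≤ X} =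
      {q : Quad F | q ∈ A ∩ B ∧ (condNorm q : ℝ) ≤ X} ∪
      {q : Quad F | q ∈ A ∩ Bᶜ ∧ (condNorm q : ℝ) ≤ X} := by
    ext q
    simp only [Set.mem_union, Set.mem_ofPred_eq, Set.mem_inter_iff, Set.mem_compl_iff]
    tauto
  unfold count
  rw [he, hu]

omit [NumberField F] in
theorem sq_one (q : Quad F) : q * q = 1 := by
  obtain ⟨d, rfl⟩ := QuotientGroup.mk_surjective q
  exact (QuotientGroup.eq_one_iff _).2 ⟨d, by simp [pow_two]⟩

omit [NumberField F] in
theorem q_mul_one (q : Quad F) : q * 1 = q := mul_one q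

omit [NumberField F] in
theorem q_comm (q q' : Quad F) : q * q' = q' * q :=
  @CommMagma.mul_comm (Quad F) (QuotientGroup.Quotient.commGroup _).toCommMagma q q'

omit [NumberField F] in
theorem q_cancel {q q' t : Quad F} (h : q * t = q' * t) : q = q' := by
  have h1 : q * t * t = q' * t * t := by rw [h]
  rwa [mul_assoc, mul_assoc, sq_one, q_mul_one, q_mul_one] at h1

/-- A finite set of places: a subgroup of finite index all whose elements are locally trivial. -/
theorem exists_sub (h1 : LfiS) (h2 : LinS) (S : Set (Pl F)) (hS : S.Finite) :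
    ∃ H : Subgroup (Quad F), H.FiniteIndex ∧ ∀ q ∈ H, ∀ p ∈ S, TrivAt p q := by
  induction S, hS using Set.Finite.induction_on with
  | empty => exact ⟨⊤, inferInstance, fun _ _ p hp => absurd hp (Set.notMem_empty p)⟩
  | @insert p S _ _ ih =>
    obtain ⟨H, hH, hq⟩ := ih
    have hp : ∃ H' : Subgroup (Quad F), H'.FiniteIndex ∧ ∀ q, q ∈ H' ↔ TrivAt p q := by
      rcases p with v | w
      · exact h1 F v
      · exact h2 F w
    obtain ⟨H', hH', hq'⟩ := hp
    refine ⟨H ⊓ H', inferInstance, ?_⟩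
    intro q hqq p' hp'
    rcases Set.mem_insert_iff.1 hp' with rfl | h
    · exact (hq' q).1 hqq.2
    · exact hq q hqq.1 p' h

/-- Lower bound for a coset of a subgroup of finite index. -/
theorem coset_lower (h4 : CqnS) (H : Subgroup (Quad F)) (hH : H.FiniteIndex) (q0 : Quad F) :
    ∃ c : ℝ, 0 < c ∧ ∀ᶠ X : ℝ in atTop, c * X ≤ (count {q | q * q0 ∈ H} X : ℝ) := by
  classical
  obtain ⟨hfin, _, ⟨c, hc, hlow⟩, htr⟩ := h4 F
  have : Finite (Quad F ⧸ H) := Subgroup.finite_quotient_of_finiteIndex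
  have : Fintype (Quad F ⧸ H) := Fintype.ofFinite _
  let a : Quad F ⧸ H → Quad F := fun z => Quotient.out z
  have ha : ∀ z, (QuotientGroup.mk (a z) : Quad F ⧸ H) = z := fun z => Quotient.out_eq z
  choose K hK1 hK using fun z : Quad F ⧸ H => htr (a z * q0)
  let C : ℝ := ∑ z, K z
  have hKC : ∀ z, K z ≤ C := fun z =>
    Finset.single_le_sum (f := K) (fun i _ => le_trans zero_le_one (hK1 i)) (Finset.mem_univ z)
  have hC0 : 0 < C := lt_of_lt_of_le (lt_of_lt_of_le one_pos (hK1 (QuotientGroup.mk 1))) (hKC _)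
  let m : ℕ := (Set.univ : Set (Quad F ⧸ H)).ncard
  have hm : 0 < m := by
    have : (Set.univ : Set (Quad F ⧸ H)).Nonempty := Set.univ_nonempty
    exact (Set.ncard_pos (Set.toFinite _)).2 this
  have key : ∀ X : ℝ, 0 ≤ X → count (Set.univ : Set (Quad F)) X ≤
      m * count {q | q * q0 ∈ H} (C * X) := by
    intro X hX
    have h5 : count (Set.univ : Set (Quad F)) X ≤
        ((Set.univ : Set (Quad F ⧸ H)) ×ˢ
          {q : Quad F | q ∈ {q | q * q0 ∈ H} ∧ (condNorm q : ℝ) ≤ C * X}).ncard := by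
      unfold count
      refine Set.ncard_le_ncard_of_injOn
        (fun q => ((QuotientGroup.mk q : Quad F ⧸ H), q * (a (QuotientGroup.mk q) * q0))) ?_ ?_ ?_
      · rintro q ⟨_, hq⟩
        refine ⟨Set.mem_univ _, ?_, ?_⟩
        · change q * (a (QuotientGroup.mk q) * q0) * q0 ∈ H
          have e1 : q * (a (QuotientGroup.mk q) * q0) * q0 = (a (QuotientGroup.mk q))⁻¹ * q := by
            have e2 : (a (QuotientGroup.mk q : Quad F ⧸ H))⁻¹ = a (QuotientGroup.mk q) :=
              inv_eq_of_mul_eq_one_left (sq_one _)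
            rw [e2, mul_assoc, mul_assoc, sq_one q0, q_mul_one]
            exact q_comm _ _
          rw [e1]
          exact QuotientGroup.eq.1 (ha _)
        · refine le_trans (hK _ q) ?_
          have h6 : (condNorm q : ℝ) ≤ X := hq
          exact mul_le_mul (hKC _) h6 (Nat.cast_nonneg _) hC0.le
      · rintro q _ q' _ hqq
        have h7 : (QuotientGroup.mk q : Quad F ⧸ H) = QuotientGroup.mk q' :=
          congrArg Prod.fst hqq
        have h8 : q * (a (QuotientGroup.mk q) * q0) = q' * (a (QuotientGroup.mk q') * q0) :=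
          congrArg Prod.snd hqq
        rw [h7] at h8
        exact q_cancel h8
      · exact (Set.toFinite _).prod ((hfin (C * X)).subset (fun _ hq => hq.2))
    rw [Set.ncard_prod] at h5
    exact h5
  refine ⟨c / (m * C), by positivity, ?_⟩
  have hmul : Tendsto (fun X : ℝ => C⁻¹ * X) atTop atTop :=
    tendsto_id.const_mul_atTop (inv_pos.2 hC0)
  filter_upwards [hmul.eventually hlow, eventually_ge_atTop (0 : ℝ)] with X hX hX0
  have h9 := key (C⁻¹ * X) (by positivity)
  have h10 : C * (C⁻¹ * X) = X := by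
    rw [← mul_assoc, mul_inv_cancel₀ hC0.ne', one_mul]
  rw [h10] at h9
  have h11 : c * (C⁻¹ * X) ≤ (m : ℝ) * (count {q | q * q0 ∈ H} X : ℝ) :=
    le_trans hX (by exact_mod_cast h9)
  have hm' : (0 : ℝ) < m := by exact_mod_cast hm
  have h12 : c / (m * C) * X = (c * (C⁻¹ * X)) / m := by
    field_simp
  rw [h12, div_le_iff₀ hm', mul_comm _ (m : ℝ)]
  exact h11

end QonM

open QonM in
/-- QON: `Q1` is `D 2`. -/
theorem qon (h1 : LfiS) (h2 : LinS) (h3 : DenS) (h4 : CqnS) : QonS := by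
  intro F _ _ o hloc
  obtain ⟨hfin, ⟨C, hC, hup⟩, _, _⟩ := h4 F
  obtain ⟨d1, _, d3⟩ := h3 F
  constructor
  · intro hQ
    refine (d1 _).2 ?_
    intro hpos
    have hsplit : {q : Quad F | o q < 2}ᶜ =
        {q : Quad F | 2 ≤ o q ∧ o q % 2 = 0} ∪ {q : Quad F | 2 ≤ o q ∧ o q % 2 = 1} := by
      ext q
      simp only [Set.mem_compl_iff, Set.mem_ofPred_eq, Set.mem_union]
      omega
    rw [hsplit] at hpos
    have main : ∀ e : ℕ, e < 2 → ¬ PosUpper {q : Quad F | 2 ≤ o q ∧ o q % 2 = e} := by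
      rintro e he ⟨c, hc, hf⟩
      have hne : ∃ q0 : Quad F, 2 ≤ o q0 ∧ o q0 % 2 = e := by
        by_contra hcon
        obtain ⟨X, hX, hX0⟩ := (hf.and_eventually (eventually_gt_atTop (0 : ℝ))).exists
        have h5 : {q : Quad F | 2 ≤ o q ∧ o q % 2 = e} = ∅ := by
          ext q
          simp only [Set.mem_ofPred_eq, Set.mem_empty_iff_false, iff_false]
          exact fun hq => hcon ⟨q, hq⟩
        rw [h5] at hX
        have h6 : count (∅ : Set (Quad F)) X = 0 := by simp [count]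
        rw [h6, Nat.cast_zero] at hX
        have := mul_pos hc hX0
        linarith
      obtain ⟨q0, _, hq0⟩ := hne
      have hD := hQ q0 ∅ Set.finite_empty
      rw [hq0] at hD
      set A : Set (Quad F) := {q | o q % 2 = e ∧ ∀ p ∈ (∅ : Set (Pl F)), TrivAt p (q * q0)}
        with hA
      set B : Set (Quad F) := {q | o q = e} with hB
      have hsub : {q : Quad F | 2 ≤ o q ∧ o q % 2 = e} ⊆ A ∩ Bᶜ := by
        rintro q ⟨hq1, hq2⟩
        refine ⟨⟨hq2, fun p hp => absurd hp (Set.notMem_empty p)⟩, ?_⟩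
        intro hq3
        have : o q = e := hq3
        omega
      have hlt : 1 - c / (2 * C) < 1 := by
        have : 0 < c / (2 * C) := by positivity
        linarith
      have hev := hD.eventually (lt_mem_nhds hlt)
      obtain ⟨X, hX, hX1, hX0⟩ :=
        (hf.and_eventually (hev.and (eventually_gt_atTop (0 : ℝ)))).exists
      have hs := count_split h4 A B X
      have hs' : (count A X : ℝ) = (count (A ∩ B) X : ℝ) + (count (A ∩ Bᶜ) X : ℝ) := by
        exact_mod_cast hs
      have h7 : (count A X : ℝ) ≤ C * X :=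
        le_trans (by exact_mod_cast count_le h4 (Set.subset_univ A) le_rfl) (hup X hX0.le)
      have h8 : c * X ≤ (count (A ∩ Bᶜ) X : ℝ) :=
        le_trans hX (by exact_mod_cast count_le h4 hsub le_rfl)
      have h9 : 0 < (count A X : ℝ) := by
        have : 0 < c * X := mul_pos hc hX0
        have := (Nat.cast_nonneg (count (A ∩ B) X) : (0 : ℝ) ≤ _)
        linarith
      rw [lt_div_iff₀ h9] at hX1
      have h10 : c / (2 * C) * (count A X : ℝ) ≤ c / (2 * C) * (C * X) :=
        mul_le_mul_of_nonneg_left h7 (by positivity)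
      have h11 : c / (2 * C) * (C * X) = c * X / 2 := by
        field_simp
      have h12 : 0 < c * X := mul_pos hc hX0
      nlinarith
    rcases d3 _ _ hpos with h | h
    · exact main 0 (by norm_num) h
    · exact main 1 (by norm_num) h
  · intro hD q0 S hS
    have hno : ¬ PosUpper {q : Quad F | o q < 2}ᶜ := (d1 _).1 hD
    obtain ⟨T, hT, hTp⟩ := hloc
    obtain ⟨H, hH, hHq⟩ := exists_sub h1 h2 (S ∪ T) (hS.union hT)
    obtain ⟨c, hc, hlow⟩ := coset_lower h4 H hH q0
    set A : Set (Quad F) := {q | o q % 2 = o q0 % 2 ∧ ∀ p ∈ S, TrivAt p (q * q0)} with hA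
    set B : Set (Quad F) := {q | o q = o q0 % 2} with hB
    have hsub : {q : Quad F | q * q0 ∈ H} ⊆ A := by
      intro q hq
      refine ⟨hTp q q0 fun p hp => hHq _ hq p (Or.inr hp), fun p hp => hHq _ hq p (Or.inl hp)⟩
    have hsub2 : A ∩ Bᶜ ⊆ {q : Quad F | o q < 2}ᶜ := by
      rintro q ⟨⟨hq1, _⟩, hq2⟩ hq3
      apply hq2
      change o q = o q0 % 2
      have : o q < 2 := hq3
      omega
    have hlowA : ∀ᶠ X : ℝ in atTop, c * X ≤ (count A X : ℝ) := by
      filter_upwards [hlow] with X hX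
      exact le_trans hX (by exact_mod_cast count_le h4 hsub le_rfl)
    unfold DensityOne
    rw [Metric.tendsto_atTop']
    intro e he
    have hsmall : ∀ᶠ X : ℝ in atTop, (count ({q : Quad F | o q < 2}ᶜ) X : ℝ) < (e * c) * X := by
      by_contra hcon
      rw [Filter.not_eventually] at hcon
      exact hno ⟨e * c, mul_pos he hc, hcon.mono fun X hX => not_lt.1 hX⟩
    obtain ⟨X0, hX0⟩ := Filter.eventually_atTop.1
      (hlowA.and (hsmall.and (eventually_gt_atTop (0 : ℝ))))
    refine ⟨X0, fun X hX => ?_⟩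
    obtain ⟨h5, h6, h7⟩ := hX0 X hX.le
    have hs := count_split h4 A B X
    have hs' : (count A X : ℝ) = (count (A ∩ B) X : ℝ) + (count (A ∩ Bᶜ) X : ℝ) := by
      exact_mod_cast hs
    have h8 : 0 < (count A X : ℝ) := lt_of_lt_of_le (mul_pos hc h7) h5
    have h9 : (count (A ∩ Bᶜ) X : ℝ) ≤ (count ({q : Quad F | o q < 2}ᶜ) X : ℝ) := by
      exact_mod_cast count_le h4 hsub2 le_rfl
    have h10 : (count (A ∩ B) X : ℝ) / (count A X : ℝ) =
        1 - (count (A ∩ Bᶜ) X : ℝ) / (count A X : ℝ) := by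
      rw [eq_sub_iff_add_eq, ← add_div, ← hs', div_self h8.ne']
    rw [h10, Real.dist_eq]
    have h11 : 1 - (count (A ∩ Bᶜ) X : ℝ) / (count A X : ℝ) - 1 =
        - ((count (A ∩ Bᶜ) X : ℝ) / (count A X : ℝ)) := by ring
    rw [h11, abs_neg, abs_of_nonneg (by positivity), div_lt_iff₀ h8]
    have h12 : e * (c * X) ≤ e * (count A X : ℝ) := mul_le_mul_of_nonneg_left h5 he.le
    nlinarith

end Pool.Agent.Lib.MP_50bb2e_nt.MT.H57
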