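import Pool.Agent.Lib.MP_50bb2e_nt.MT.Iface

/-!
Module TWR: the tower criterion.
-/

open NumberField IsDedekindDomain Filter Topology

namespace Pool.Agent.Lib.MP_50bb2e_nt.MT.H57

/-- DEN implies that there are finitely many classes of bounded conductor. -/
theorem fin_of_den (h2 : DenS) (F : Type) [Field F] [NumberField F] (X : ℝ) :
    {q : Quad F | (condNorm q : ℝ) ≤ X}.Finite := by
  have h1 := ((h2 F).1 Set.univ).2 (by
    rintro ⟨c, hc, hf⟩
    obtain ⟨Y, hY, hY0⟩ := (hf.and_eventually (eventually_gt_atTop (0 : ℝ))).exists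
    have h3 : count (Set.univᶜ : Set (Quad F)) Y = 0 := by
      simp [count]
    rw [h3] at hY
    have : 0 < c * Y := mul_pos hc hY0
    simp only [Nat.cast_zero] at hY
    linarith)
  have h3 : ∀ᶠ Y : ℝ in atTop, count (Set.univ : Set (Quad F)) Y ≠ 0 := by
    have := h1.eventually (lt_mem_nhds (show (0 : ℝ) < 1 by norm_num))
    filter_upwards [this] with Y hY h0
    rw [h0] at hY
    simp at hY
  obtain ⟨Y, hY, hXY⟩ := (h3.and (eventually_ge_atTop X)).exists
  have h4 : {q : Quad F | q ∈ (Set.univ : Set (Quad F)) ∧ (condNorm q : ℝ) ≤ Y}.Finite :=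
    Set.finite_of_ncard_ne_zero hY
  exact h4.subset (fun q hq => ⟨Set.mem_univ _, le_trans hq hXY⟩)

/-- Positive upper density is monotone. -/
theorem posUpper_mono (h2 : DenS) {F : Type} [Field F] [NumberField F] {E E' : Set (Quad F)}
    (hE : E ⊆ E') (h : PosUpper E) : PosUpper E' := by
  obtain ⟨c, hc, hf⟩ := h
  refine ⟨c, hc, hf.mono fun X hX => hX.trans ?_⟩
  have : count E X ≤ count E' X :=
    Set.ncard_le_ncard (fun q hq => ⟨hE hq.1, hq.2⟩)
      ((fin_of_den h2 F X).subset (fun q hq => hq.2))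
  exact_mod_cast this

/-- TWR: the tower criterion. -/
theorem twr (h1 : SeqS) (h2 : DenS) : TwrS := by
  intro F _ _ o r R
  constructor
  · intro hD psi _
    refine ⟨0, ?_⟩
    have h3 : {q : Quad F | towerOrder o psi 0 q < r * 2 ^ 0} = {q | o q < r} := by
      ext q
      simp [towerOrder]
    rw [h3]
    exact hD
  · intro hall
    by_contra hD
    obtain ⟨d1, _, _⟩ := h2 F
    have hE : PosUpper {q : Quad F | o q < r}ᶜ := by
      by_contra h
      exact hD ((d1 _).2 h)
    obtain ⟨psi, hpsi, hk⟩ := h1 F _ hE R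
    obtain ⟨k, hk'⟩ := hall psi hpsi
    refine (d1 _).1 hk' (posUpper_mono h2 ?_ (hk k))
    intro q hq
    simp only [Set.mem_compl_iff, Set.mem_ofPred_eq, not_lt] at hq ⊢
    have h4 := Finset.card_nsmul_le_sum (Finset.range k).powerset
      (fun I => o (q * ∏ i ∈ I, psi i)) r hq
    rw [Finset.card_powerset, Finset.card_range, smul_eq_mul] at h4
    rw [mul_comm]
    exact h4

end Pool.Agent.Lib.MP_50bb2e_nt.MT.H57
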